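import Pool.Agent.W816.PB8.Cong

set_option autoImplicit false

namespace Pool.Agent.Results.MP_8b5829_co.CongruenceLaw

/-- For every `N` there is a finite colouring of the natural numbers such that every
monochromatic triple `a`, `b`, `a ^ (b + 1)` with `a, b ≥ 2` satisfies: `2 ^ N` divides `a` and
`b`, and for every prime `q ≤ N` either `q ^ N` divides both `a` and `b`, or `q ^ N` divides both
`a + 1` and `b + 1`. -/
theorem result : ∀ N : ℕ, ∃ (k : ℕ) (c : ℕ → Fin k), ∀ a b : ℕ, 1 < a → 1 < b →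
    c a = c b → c a = c (a ^ (b + 1)) →
    (2 ^ N ∣ a ∧ 2 ^ N ∣ b) ∧
    ∀ q : ℕ, q.Prime → q ≤ N →
      (q ^ N ∣ a ∧ q ^ N ∣ b) ∨ (q ^ N ∣ a + 1 ∧ q ^ N ∣ b + 1) := by
  intro N
  obtain ⟨k, c, hc⟩ := Pool.Agent.W816.PB8.cong_aux (N + 2) (by omega)
  refine ⟨k, c, ?_⟩
  intro a b ha _ hab hac
  obtain ⟨hres, h2, hq⟩ := hc a b ha hab hac
  have hmod : ∀ q : ℕ, q.Prime → q ≤ N + 2 → a ≡ b [MOD q ^ (N + 2)] := by
    intro q hqp hqN
    have h : a ≡ b [MOD (N + 2).factorial ^ (N + 2)] := hres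
    exact h.of_dvd (pow_dvd_pow_of_dvd ((hqp.dvd_factorial).2 hqN) _)
  have hdown : ∀ q : ℕ, q ^ N ∣ q ^ (N + 2) := fun q => pow_dvd_pow q (by omega)
  refine ⟨⟨?_, ?_⟩, ?_⟩
  · exact (hdown 2).trans ((((hmod 2 Nat.prime_two (by omega)).dvd_iff dvd_rfl)).2 h2)
  · exact (hdown 2).trans h2
  · intro q hqp hqN
    have hm := hmod q hqp (by omega)
    rcases hq q hqp (by omega) with h | h
    · left
      exact ⟨(hdown q).trans ((hm.dvd_iff dvd_rfl).2 h), (hdown q).trans h⟩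
    · right
      exact ⟨(hdown q).trans (((hm.add_right 1).dvd_iff dvd_rfl).2 h), (hdown q).trans h⟩

end Pool.Agent.Results.MP_8b5829_co.CongruenceLaw
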