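import Pool.Agent.W816.PB8.Smooth

set_option autoImplicit false

namespace Pool.Agent.Results.MP_8b5829_co.SmoothExponent

/-- For every `N` there is a finite colouring of the natural numbers for which no pair
`a`, `a ^ (b + 1)` is monochromatic when `a ≥ 2`, `b ≥ 1` and all prime factors of `b` are
at most `N`. -/
theorem result : ∀ N : ℕ, ∃ (k : ℕ) (c : ℕ → Fin k), ∀ a b : ℕ, 1 < a → 1 ≤ b →
    (∀ p : ℕ, p.Prime → p ∣ b → p ≤ N) → c a ≠ c (a ^ (b + 1)) :=
  Pool.Agent.W816.PB8.smooth

end Pool.Agent.Results.MP_8b5829_co.SmoothExponent
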