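import Pool.Agent.W816.PB8.Tower

set_option autoImplicit false

namespace Pool.Agent.Results.MP_8b5829_co.TowerLaw

/-- For every `N` there is a colouring of the natural numbers with `N + 3` colours such that every
monochromatic triple `a`, `b`, `a ^ (b + 1)` with `a, b ≥ 2` satisfies
`2 ^ 2 ^ ... ^ 2 ^ b < a` (a tower with `N` twos). -/
theorem result : ∀ N : ℕ, ∃ c : ℕ → Fin (N + 3), ∀ a b : ℕ, 1 < a → 1 < b →
    c a = c b → c a = c (a ^ (b + 1)) → (fun t : ℕ => 2 ^ t)^[N] b < a :=
  Pool.Agent.W816.PB8.tower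

end Pool.Agent.Results.MP_8b5829_co.TowerLaw
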